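import Pool.Agent.Helper4.HZ.Goals

/-! # Packet HZ AUB (MP_af40fb_al): automorphisms of `PSL₂(p)` preserving the unipotents -/

set_option autoImplicit false

namespace Pool.Agent.Helper93.HZ

open Pool.Agent.Helper4.HZ Matrix

variable {p : ℕ} [Fact p.Prime]

/-- upper unipotent matrix -/
def U (x : ZMod p) : Matrix.SpecialLinearGroup (Fin 2) (ZMod p) :=
  ⟨!![1, x; 0, 1], by simp [Matrix.det_fin_two]⟩

/-- lower unipotent matrix -/
def V (y : ZMod p) : Matrix.SpecialLinearGroup (Fin 2) (ZMod p) :=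
  ⟨!![1, 0; y, 1], by simp [Matrix.det_fin_two]⟩

/-- the class in the projective group -/
def mk (A : Matrix.SpecialLinearGroup (Fin 2) (ZMod p)) : PSL2 p := QuotientGroup.mk A

theorem mk_mul (A B : Matrix.SpecialLinearGroup (Fin 2) (ZMod p)) : mk (A * B) = mk A * mk B := rfl

theorem mk_pow (A : Matrix.SpecialLinearGroup (Fin 2) (ZMod p)) (n : ℕ) :
    mk (A ^ n) = mk A ^ n := rfl

theorem uu_eq (x : ZMod p) : uu p x = mk (U x) := rfl

theorem vv_eq (x : ZMod p) : vv p x = mk (V x) := rfl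

theorem U_add (x y : ZMod p) : U (x + y) = U x * U y := by
  ext i j
  fin_cases i <;> fin_cases j <;> simp [U, Matrix.mul_apply, Fin.sum_univ_two, add_comm]

theorem V_add (x y : ZMod p) : V (x + y) = V x * V y := by
  ext i j
  fin_cases i <;> fin_cases j <;> simp [V, Matrix.mul_apply, Fin.sum_univ_two]

theorem U_zero : U (0 : ZMod p) = 1 := by
  ext i j
  fin_cases i <;> fin_cases j <;> simp [U]

theorem V_zero : V (0 : ZMod p) = 1 := by
  ext i j
  fin_cases i <;> fin_cases j <;> simp [V]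

theorem U_pow (x : ZMod p) (n : ℕ) : U x ^ n = U ((n : ZMod p) * x) := by
  induction n with
  | zero => rw [pow_zero, Nat.cast_zero, zero_mul, U_zero]
  | succ n ih =>
    rw [pow_succ, ih, ← U_add]
    congr 1
    push_cast
    ring

theorem V_pow (x : ZMod p) (n : ℕ) : V x ^ n = V ((n : ZMod p) * x) := by
  induction n with
  | zero => rw [pow_zero, Nat.cast_zero, zero_mul, V_zero]
  | succ n ih =>
    rw [pow_succ, ih, ← V_add]
    congr 1
    push_cast
    ring

theorem mk_eq {A B : Matrix.SpecialLinearGroup (Fin 2) (ZMod p)} (h : mk A = mk B) :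
    ∃ r : ZMod p, ∀ i j, B.1 i j = r * A.1 i j := by
  have h1 : A⁻¹ * B ∈ Subgroup.center (Matrix.SpecialLinearGroup (Fin 2) (ZMod p)) :=
    QuotientGroup.eq.1 h
  obtain ⟨r, -, hr⟩ := Matrix.SpecialLinearGroup.mem_center_iff.1 h1
  refine ⟨r, fun i j => ?_⟩
  have h2 : B.1 = A.1 * (Matrix.scalar (Fin 2) r) := by
    rw [hr]
    have h3 : B = A * (A⁻¹ * B) := by group
    exact congrArg Subtype.val h3
  rw [h2, Matrix.scalar_apply, Matrix.mul_diagonal]
  ring

theorem phi_uu (φ : PSL2 p ≃* PSL2 p) {a : ZMod p} (h : φ (mk (U 1)) = mk (U a)) (x : ZMod p) :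
    φ (mk (U x)) = mk (U (a * x)) := by
  have hx : U x = U 1 ^ x.val := by
    rw [U_pow, mul_one, ZMod.natCast_zmod_val]
  rw [hx, mk_pow, map_pow, h, ← mk_pow, U_pow, ZMod.natCast_zmod_val, mul_comm]

theorem phi_vv (φ : PSL2 p ≃* PSL2 p) {b : ZMod p} (h : φ (mk (V 1)) = mk (V b)) (x : ZMod p) :
    φ (mk (V x)) = mk (V (b * x)) := by
  have hx : V x = V 1 ^ x.val := by
    rw [V_pow, mul_one, ZMod.natCast_zmod_val]
  rw [hx, mk_pow, map_pow, h, ← mk_pow, V_pow, ZMod.natCast_zmod_val, mul_comm]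

/-- conjugation by `diag(a, 1)` -/
def cj (a : ZMod p) (ha : a ≠ 0) (A : Matrix.SpecialLinearGroup (Fin 2) (ZMod p)) :
    Matrix.SpecialLinearGroup (Fin 2) (ZMod p) :=
  ⟨!![A.1 0 0, a * A.1 0 1; a⁻¹ * A.1 1 0, A.1 1 1], by
    have h := A.2
    rw [Matrix.det_fin_two] at h
    rw [Matrix.det_fin_two_of]
    have h1 : a * a⁻¹ = 1 := mul_inv_cancel₀ ha
    linear_combination h - A.1 0 1 * A.1 1 0 * h1⟩

theorem cj_mul (a : ZMod p) (ha : a ≠ 0) (A B : Matrix.SpecialLinearGroup (Fin 2) (ZMod p)) :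
    cj a ha (A * B) = cj a ha A * cj a ha B := by
  have h1 : a * a⁻¹ = 1 := mul_inv_cancel₀ ha
  apply Subtype.ext
  show !![(A * B).1 0 0, a * (A * B).1 0 1; a⁻¹ * (A * B).1 1 0, (A * B).1 1 1] =
    !![A.1 0 0, a * A.1 0 1; a⁻¹ * A.1 1 0, A.1 1 1] * !![B.1 0 0, a * B.1 0 1; a⁻¹ * B.1 1 0, B.1 1 1]
  have hAB : ∀ i j, (A * B).1 i j = A.1 i 0 * B.1 0 j + A.1 i 1 * B.1 1 j := by
    intro i j
    show (A.1 * B.1) i j = _
    rw [Matrix.mul_apply, Fin.sum_univ_two]
  rw [hAB, hAB, hAB, hAB, Matrix.mul_fin_two]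
  congr 1
  ext i j
  fin_cases i <;> fin_cases j
  · simp only [Fin.zero_eta, Fin.isValue, cons_val', cons_val_zero, cons_val_fin_one]
    linear_combination -A.1 0 1 * B.1 1 0 * h1
  · simp
    ring
  · simp
    ring
  · simp
    linear_combination -A.1 1 0 * B.1 0 1 * h1

theorem cj_U (a : ZMod p) (ha : a ≠ 0) (x : ZMod p) : cj a ha (U x) = U (a * x) := by
  apply Subtype.ext
  simp [cj, U]

theorem cj_V (a : ZMod p) (ha : a ≠ 0) (x : ZMod p) : cj a ha (V x) = V (a⁻¹ * x) := by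
  apply Subtype.ext
  simp [cj, V]

theorem rel : (U (1 : ZMod p) * V (-1) * U 1) * U 1 = V (-1) * (U 1 * V (-1) * U 1) := by
  apply Subtype.ext
  show ((!![1, 1; 0, 1] * !![1, 0; -1, 1] * !![1, 1; 0, 1]) * !![1, 1; 0, 1] :
    Matrix (Fin 2) (Fin 2) (ZMod p)) =
    !![1, 0; -1, 1] * (!![1, 1; 0, 1] * !![1, 0; -1, 1] * !![1, 1; 0, 1])
  simp only [Matrix.mul_fin_two]
  ext i j
  fin_cases i <;> fin_cases j <;> simp

theorem ab_eq {a b : ZMod p} (ha : a ≠ 0) (h : mk ((U a * V (-b) * U a) * U a) =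
    mk (V (-b) * (U a * V (-b) * U a))) : a * b = 1 := by
  obtain ⟨r, hr⟩ := mk_eq h
  have e1 : ((U a * V (-b) * U a) * U a).1 =
      !![1 - a * b, a * (3 - 2 * (a * b)); -b, 1 - 2 * (a * b)] := by
    show ((!![1, a; 0, 1] * !![1, 0; -b, 1] * !![1, a; 0, 1]) * !![1, a; 0, 1] :
      Matrix (Fin 2) (Fin 2) (ZMod p)) = _
    simp only [Matrix.mul_fin_two]
    ext i j
    fin_cases i <;> fin_cases j <;> simp <;> ring
  have e2 : (V (-b) * (U a * V (-b) * U a)).1 =
      !![1 - a * b, a * (2 - a * b); -b * (2 - a * b), 1 - 3 * (a * b) + (a * b) ^ 2] := by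
    show (!![1, 0; -b, 1] * (!![1, a; 0, 1] * !![1, 0; -b, 1] * !![1, a; 0, 1]) :
      Matrix (Fin 2) (Fin 2) (ZMod p)) = _
    simp only [Matrix.mul_fin_two]
    ext i j
    fin_cases i <;> fin_cases j <;> simp <;> ring
  have h1 := hr 0 0
  have h2 := hr 0 1
  rw [e1, e2] at h1 h2
  simp only [Matrix.of_apply, Matrix.cons_val', Matrix.cons_val_zero, Matrix.cons_val_one,
    Matrix.cons_val_fin_one] at h1 h2
  have h3 : (1 - a * b) * (1 - r) = 0 := by linear_combination h1
  rcases mul_eq_zero.1 h3 with h4 | h4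
  · linear_combination -h4
  · have h5 : r = 1 := by linear_combination -h4
    rw [h5] at h2
    have h6 : a * (1 - a * b) = 0 := by linear_combination -h2
    rcases mul_eq_zero.1 h6 with h7 | h7
    · exact absurd h7 ha
    · linear_combination -h7

theorem AUB_holds : S_AUB := by
  intro p _ φ hu hv
  obtain ⟨a, ha'⟩ := hu 1
  obtain ⟨b, hb'⟩ := hv 1
  rw [uu_eq, uu_eq] at ha'
  rw [vv_eq, vv_eq] at hb'
  have ha : a ≠ 0 := by
    rintro rfl
    rw [U_zero] at ha'
    have h1 : mk (U (1 : ZMod p)) = mk 1 := by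
      apply φ.injective
      rw [ha']
      show (1 : PSL2 p) = φ 1
      rw [map_one]
    obtain ⟨r, hr⟩ := mk_eq h1.symm
    have h2 := hr 0 1
    simp [U] at h2
  have hab : a * b = 1 := by
    apply ab_eq ha
    have h1 := congrArg (fun A => φ (mk A)) (rel (p := p))
    simp only [mk_mul, map_mul, ha', phi_vv φ hb'] at h1
    rw [mul_neg_one] at h1
    simp only [mk_mul]
    exact h1
  have hb : b = a⁻¹ := by
    rw [eq_comm, inv_eq_iff_eq_inv, eq_comm, inv_eq_iff_eq_inv]
    exact eq_inv_of_mul_eq_one_right hab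
  have key : ∀ A : Matrix.SpecialLinearGroup (Fin 2) (ZMod p), φ (mk A) = mk (cj a ha A) := by
    intro A
    refine Matrix.SL2.transvection_induction (fun A => φ (mk A) = mk (cj a ha A)) ?_ ?_ A
    · intro i j h c
      fin_cases i
      · obtain rfl : j = 1 := by fin_cases j <;> tauto
        have e : Matrix.SpecialLinearGroup.transvection h c = U c := by
          apply Subtype.ext
          ext k l
          fin_cases k <;> fin_cases l <;>
            simp [Matrix.SpecialLinearGroup.transvection_coe, U]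
        rw [e, cj_U, phi_uu φ ha']
      · obtain rfl : j = 0 := by fin_cases j <;> tauto
        have e : Matrix.SpecialLinearGroup.transvection h c = V c := by
          apply Subtype.ext
          ext k l
          fin_cases k <;> fin_cases l <;>
            simp [Matrix.SpecialLinearGroup.transvection_coe, V]
        rw [e, cj_V, phi_vv φ hb', hb]
    · intro A B hA hB
      rw [mk_mul, map_mul, hA, hB, ← mk_mul, cj_mul]
  refine ⟨a, ha, fun A B hB => ?_⟩
  have e : B = cj a ha A := Subtype.ext hB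
  rw [e]
  exact key A

end Pool.Agent.Helper93.HZ
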