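import Pool.Agent.Helper4.HZ.Goals2

/-! # Packet HZ KOA (MP_af40fb_al): alternating groups, Suzuki and Ree groups -/

set_option autoImplicit false

namespace Pool.Agent.Helper93.HZ

open Pool.Agent.Helper4.HZ

open scoped Nat

theorem Z_le {ι : Type} (f : ι → ℕ) {A : Set ℕ} (h : ∀ m ∈ A, ∃ i, f i = m) (s : ℝ) :
    Z s A ≤ ∑' i, ENNReal.ofReal (((f i : ℕ) : ℝ) ^ (-s)) := by
  choose g hg using h
  have hinj : Function.Injective (fun m : A => g m.1 m.2) := by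
    intro m m' hm
    have h1 : f (g m.1 m.2) = f (g m'.1 m'.2) := congrArg f hm
    rw [hg, hg] at h1
    exact Subtype.ext h1
  have h2 := ENNReal.tsum_comp_le_tsum_of_injective hinj
    (fun i => ENNReal.ofReal (((f i : ℕ) : ℝ) ^ (-s)))
  refine le_trans (le_of_eq ?_) h2
  unfold Z
  refine tsum_congr fun m => ?_
  rw [hg]

theorem Z_lt_top {s : ℝ} (hs : 0 < s) {A : Set ℕ} (f : Fin 3 × ℕ → ℕ)
    (h : ∀ m ∈ A, ∃ i, f i = m) (hf : ∀ i, 2 ^ i.2 ≤ f i) : Z s A < ⊤ := by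
  refine lt_of_le_of_lt (Z_le f h s) ?_
  set r : ℝ := (2 : ℝ) ^ (-s) with hr
  have hr0 : 0 ≤ r := by positivity
  have hr1 : r < 1 := Real.rpow_lt_one_of_one_lt_of_neg (by norm_num) (by linarith)
  have h1 : ∀ i : Fin 3 × ℕ, ENNReal.ofReal (((f i : ℕ) : ℝ) ^ (-s)) ≤ ENNReal.ofReal r ^ i.2 := by
    intro i
    rw [← ENNReal.ofReal_pow hr0]
    refine ENNReal.ofReal_le_ofReal ?_
    have h2 : ((2 : ℝ) ^ i.2) ≤ ((f i : ℕ) : ℝ) := by exact_mod_cast hf i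
    have h3 := Real.rpow_le_rpow_of_nonpos (by positivity) h2 (by linarith : -s ≤ 0)
    refine h3.trans (le_of_eq ?_)
    rw [hr, ← Real.rpow_natCast, ← Real.rpow_natCast, ← Real.rpow_mul (by norm_num),
      ← Real.rpow_mul (by norm_num), mul_comm]
  refine lt_of_le_of_lt (ENNReal.tsum_le_tsum h1) ?_
  rw [ENNReal.tsum_prod (f := fun (_ : Fin 3) (k : ℕ) => ENNReal.ofReal r ^ k)]
  simp only [ENNReal.tsum_geometric, tsum_fintype, Finset.sum_const]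
  have h4 : ENNReal.ofReal r < 1 := by
    rw [← ENNReal.ofReal_one]
    exact (ENNReal.ofReal_lt_ofReal_iff one_pos).2 hr1
  have h5 : (1 - ENNReal.ofReal r)⁻¹ < ⊤ := by
    rw [ENNReal.inv_lt_top]
    exact tsub_pos_of_lt h4
  rw [nsmul_eq_mul]
  exact ENNReal.mul_lt_top (ENNReal.natCast_lt_top _) h5

theorem two_pow_le_fact (n : ℕ) : 2 ^ n ≤ (n + 5)! / 2 := by
  rw [Nat.le_div_iff_mul_le (by norm_num)]
  induction n with
  | zero => decide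
  | succ n ih =>
    have e : (n + 1 + 5)! = (n + 6) * (n + 5)! := Nat.factorial_succ (n + 5)
    rw [e, pow_succ]
    nlinarith

theorem KOA_holds : S_KOA := by
  intro s hs
  constructor
  · refine Z_lt_top hs (fun i => (i.2 + 5)! / 2) ?_ fun i => two_pow_le_fact i.2
    rintro m ⟨n, hn, rfl⟩
    refine ⟨(0, n - 5), ?_⟩
    show (n - 5 + 5)! / 2 = n ! / 2
    rw [Nat.sub_add_cancel hn]
  · refine Z_lt_top hs (fun i => ![(2 ^ (2 * i.2 + 1)) ^ 2 * ((2 ^ (2 * i.2 + 1)) ^ 2 + 1) *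
        (2 ^ (2 * i.2 + 1) - 1),
      (2 ^ (2 * i.2 + 1)) ^ 12 * ((2 ^ (2 * i.2 + 1)) ^ 6 + 1) * ((2 ^ (2 * i.2 + 1)) ^ 4 - 1) *
        ((2 ^ (2 * i.2 + 1)) ^ 3 + 1) * (2 ^ (2 * i.2 + 1) - 1),
      (3 ^ (2 * i.2 + 1)) ^ 3 * ((3 ^ (2 * i.2 + 1)) ^ 3 + 1) * (3 ^ (2 * i.2 + 1) - 1)] i.1) ?_ ?_
    · rintro m ⟨k, q, hk, ⟨rfl, rfl | rfl⟩ | ⟨rfl, rfl⟩⟩
      · exact ⟨(0, k), rfl⟩
      · exact ⟨(1, k), rfl⟩
      · exact ⟨(2, k), rfl⟩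
    · have hq : ∀ q k : ℕ, 2 ^ k ≤ q → 2 ≤ q → ∀ a b : ℕ, 1 ≤ a → 1 ≤ b → ∀ c, 1 ≤ c →
          2 ^ k ≤ q ^ c * a * b := by
        intro q k h1 h2 a b ha hb c hc
        have h3 : q ≤ q ^ c := Nat.le_self_pow (by omega) q
        calc 2 ^ k ≤ q ^ c * 1 * 1 := by rw [mul_one, mul_one]; exact h1.trans h3
          _ ≤ q ^ c * a * b := Nat.mul_le_mul (Nat.mul_le_mul le_rfl ha) hb
      have h2k : ∀ k : ℕ, 2 ^ k ≤ 2 ^ (2 * k + 1) ∧ 2 ≤ 2 ^ (2 * k + 1) := fun k =>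
        ⟨Nat.pow_le_pow_right (by norm_num) (by omega),
          by
            calc 2 = 2 ^ 1 := rfl
              _ ≤ 2 ^ (2 * k + 1) := Nat.pow_le_pow_right (by norm_num) (by omega)⟩
      have h3k : ∀ k : ℕ, 2 ^ k ≤ 3 ^ (2 * k + 1) ∧ 2 ≤ 3 ^ (2 * k + 1) := fun k =>
        ⟨(h2k k).1.trans (Nat.pow_le_pow_left (by norm_num) _),
          (h2k k).2.trans (Nat.pow_le_pow_left (by norm_num) _)⟩
      rintro ⟨j, k⟩
      fin_cases j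
      · show 2 ^ k ≤ (2 ^ (2 * k + 1)) ^ 2 * ((2 ^ (2 * k + 1)) ^ 2 + 1) * (2 ^ (2 * k + 1) - 1)
        have := (h2k k).2
        exact hq _ _ (h2k k).1 this _ _ (by omega) (by omega) 2 (by norm_num)
      · show 2 ^ k ≤ (2 ^ (2 * k + 1)) ^ 12 * ((2 ^ (2 * k + 1)) ^ 6 + 1) *
          ((2 ^ (2 * k + 1)) ^ 4 - 1) * ((2 ^ (2 * k + 1)) ^ 3 + 1) * (2 ^ (2 * k + 1) - 1)
        have h5 := (h2k k).2
        have h4 : 2 ^ 4 ≤ (2 ^ (2 * k + 1)) ^ 4 := Nat.pow_le_pow_left h5 4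
        have h6 : 1 ≤ (2 ^ (2 * k + 1)) ^ 4 - 1 := by omega
        have h7 : 1 ≤ ((2 ^ (2 * k + 1)) ^ 6 + 1) := by omega
        have h8 := hq _ _ (h2k k).1 h5 _ _ h7 h6 12 (by norm_num)
        have h9 : 1 ≤ ((2 ^ (2 * k + 1)) ^ 3 + 1) := by omega
        have h10 : 1 ≤ 2 ^ (2 * k + 1) - 1 := by omega
        calc 2 ^ k ≤ (2 ^ (2 * k + 1)) ^ 12 * ((2 ^ (2 * k + 1)) ^ 6 + 1) *
              ((2 ^ (2 * k + 1)) ^ 4 - 1) * 1 * 1 := by rw [mul_one, mul_one]; exact h8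
          _ ≤ _ := Nat.mul_le_mul (Nat.mul_le_mul le_rfl h9) h10
      · show 2 ^ k ≤ (3 ^ (2 * k + 1)) ^ 3 * ((3 ^ (2 * k + 1)) ^ 3 + 1) * (3 ^ (2 * k + 1) - 1)
        have := (h3k k).2
        exact hq _ _ (h3k k).1 this _ _ (by omega) (by omega) 3 (by norm_num)

end Pool.Agent.Helper93.HZ
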